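import Mathlib
import Pool.Graph.R_seed8.TH497.PW.IntFlow
import Pool.Graph.R_seed8.TH362.FP.Pos
import Pool.Graph.R_seed8.Helper335.Rel.Main
import Pool.Agent.H14.F5.Outside

set_option autoImplicit false

/-!
# Deletion of few vertices leaves few circuits (MP_c8786f_co)

Let `G` be a bridgeless multigraph, let `c_1, ..., c_k` be vertices and `s_1, ..., s_k` natural
numbers and let `S` be a set of vertices each of which has distance at most `s_i` from some `c_i`.  If
`63 z + 68 W ≤ 4346`, where `z` is the cyclomatic number of `G - S` (without the loops) and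
`W = ∑ (3 * 2 ^ s_i - 1)`, then `G` has a nowhere-zero 5-flow and the characteristic polynomial of its
bond matroid is positive at all integers `q ≥ 5`.  For instance `G` may have cyclomatic number 68, or
cyclomatic number at most 66, 64, 62, ... after the deletion of 1, 2, 3, ... vertices, or become a
forest by the deletion of at most 31 vertices or of vertices in a ball of radius 4.  The weights of
balls of radius 0, 1, 2, 3, 4 are 2, 5, 11, 23, 47.  (The library has the condition `z + W ≤ 63`, the
limit of the bound 126, the order of the 12-cage, for a smallest counterexample.)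

The theorem is proved in a stronger form: let `C_1, ..., C_m` be cycles of `G`, each with at most
eleven edges outside the union `F` of the earlier ones (`F` = union of all); then it is enough that
`G / F` satisfies the condition; the loops of `G / F` do not count.

Proof.  The class is closed under contractions, because distances do not increase, so a minimal
counterexample `G` has girth at least twelve and all degrees at least three, apart from isolated
vertices (libraries `Y335/FL` and `Y358/IN`), and it has at least 136 vertices of degree three by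
`H14/F5/Main.lean`: a cubic graph of girth twelve with at most 134 vertices becomes bipartite by the
deletion of eight vertices and is cyclically 9-edge-connected, so that it has a nowhere-zero 5-flow
by the library theorem `OddCircuitTransversals`.  So the number `X` of the edges is at least 204.
Let `x_j` be the number of edges leaving the ball of radius `j` around `c`.  Then `x_{j+1} ≥ 2 x_j`
for `j ≤ 4`, these sets of edges are disjoint, and `x_0 + ... + x_s` edges have an end in the ball of
radius `s ≤ 4`.  Hence if `e` edges leave the union `T` of the balls and `t` edges have an end in `T`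
then `63 (e + t) ≤ W X`.  For the `m = X - t` edges and the `n` vertices outside of `T` we have
`3 n ≤ 2 m + e` and `z ≥ m - n + 1`.  Together with `X ≥ 204` this is a contradiction.  (This part is
the proof of the library, `Q287/FL/Around`.)
-/

namespace Pool.Agent.Results.MP_c8786f_co.CyclomaticOutsideBalls68

variable {V E W : Type}

/-- The edges with exactly one end in `Y`. -/
def boundary [DecidableEq V] [Fintype E] (src dst : E → V) (Y : Finset V) : Finset E :=
  Finset.univ.filter (fun e => ¬ (src e ∈ Y ↔ dst e ∈ Y))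

/-- Kirchhoff's law. -/
def IsFlow [DecidableEq V] [Fintype E] (src dst : E → V) (f : E → ℤ) : Prop :=
  ∀ v : V, ∑ e ∈ Finset.univ.filter (fun e => src e = v), f e
    = ∑ e ∈ Finset.univ.filter (fun e => dst e = v), f e

/-- `C` is a cycle: the support of an integer flow with the values `0`, `1` and `-1`. -/
def IsCycle [DecidableEq V] [Fintype E] (src dst : E → V) (C : Finset E) : Prop :=
  ∃ z : E → ℤ, IsFlow src dst z ∧ (∀ e, z e = 0 ∨ z e = 1 ∨ z e = -1) ∧ ∀ e, z e ≠ 0 ↔ e ∈ C

/-- The map `r` identifies only vertices which are joined by a path with edges in `F`; if `r` is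
the map to the components of the graph `(V, F)` then `r ∘ src`, `r ∘ dst` is the graph `G / F` (with
the edges in `F` as loops). -/
def JoinedIn (src dst : E → V) (F : Finset E) (r : V → W) : Prop :=
  ∀ x y, r x = r y → (SimpleGraph.fromRel
    (fun u v : V => ∃ e ∈ F, src e = u ∧ dst e = v)).Reachable x y

/-- The number of the connected components of the graph with the vertices `V` and the edges `A`. -/
noncomputable def components (src dst : E → V) (A : Finset E) : ℕ :=
  Nat.card (SimpleGraph.fromRel
    (fun u v : V => ∃ e ∈ A, src e = u ∧ dst e = v)).ConnectedComponent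

/-- The rank of `A` in the cycle matroid of the graph. -/
noncomputable def cycleRank [Fintype V] (src dst : E → V) (A : Finset E) : ℕ :=
  Fintype.card V - components src dst A

/-- The rank of `A` in the bond matroid of the graph, the dual of the cycle matroid:
`|A| + r(E \ A) - r(E)`. -/
noncomputable def bondRank [Fintype V] [Fintype E] [DecidableEq E] (src dst : E → V)
    (A : Finset E) : ℕ :=
  A.card + cycleRank src dst Aᶜ - cycleRank src dst Finset.univ

/-- The characteristic polynomial of the bond matroid at the integer `x`,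
`∑ (-1)^|A| x^(r*(E) - r*(A))`. -/
noncomputable def bondCharPoly [Fintype V] [Fintype E] [DecidableEq E] (src dst : E → V)
    (x : ℤ) : ℤ :=
  ∑ A : Finset E, (-1) ^ A.card * x ^ (bondRank src dst Finset.univ - bondRank src dst A)

theorem isFlow_iff [DecidableEq V] [Fintype E] (src dst : E → V) (f : E → ℤ) :
    IsFlow src dst f ↔
      ∀ v, ∑ e, f e * ((if src e = v then 1 else 0) - (if dst e = v then 1 else 0)) = 0 := by
  unfold IsFlow
  refine forall_congr' fun v => ?_
  rw [Finset.sum_filter, Finset.sum_filter, ← sub_eq_zero, ← Finset.sum_sub_distrib]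
  have : ∀ e, (if src e = v then f e else 0) - (if dst e = v then f e else 0)
      = f e * ((if src e = v then 1 else 0) - (if dst e = v then 1 else 0)) := by
    intro e
    by_cases h1 : src e = v <;> by_cases h2 : dst e = v <;> simp [h1, h2]
  rw [Finset.sum_congr rfl (fun e _ => this e)]

theorem nzf [Fintype V] [DecidableEq V] [Fintype E] [DecidableEq E] (src dst : E → V)
    (h : Pool.Agent.TH676.Z.FlowOn src dst ∅ ∅) : Pool.Agent.TH497.PW.NZF src dst := by
  obtain ⟨f, h1, _, h3⟩ := h
  refine ⟨f, fun e => h3 e (Finset.notMem_empty _) (Finset.notMem_empty _), fun x => ?_⟩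
  rw [← h1 x]
  unfold Pool.Agent.TH676.Z.bd
  refine Finset.sum_congr rfl fun e _ => ?_
  unfold Pool.Agent.TH497.PW.ic
  by_cases h4 : src e = x <;> by_cases h5 : dst e = x <;> simp [h4, h5]

/-- the reduction modulo five of a flow with values in `{0, 1, -1}` -/
theorem mod5 [Fintype V] [DecidableEq V] [Fintype E] [DecidableEq E] (src dst : E → V)
    (C : Finset E) (h : IsCycle src dst C) :
    ∃ z : E → ZMod 5, (∀ v, Pool.Agent.TH676.Z.bd src dst z v = 0) ∧
      (∀ e, z e = 0 ∨ z e = 1 ∨ z e = -1) ∧ ∀ e, z e ≠ 0 ↔ e ∈ C := by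
  obtain ⟨z, h1, h2, h3⟩ := h
  refine ⟨fun e => ((z e : ℤ) : ZMod 5), fun v => ?_, fun e => ?_, fun e => ?_⟩
  · have h4 := h1 v
    rw [Finset.sum_filter, Finset.sum_filter, ← sub_eq_zero, ← Finset.sum_sub_distrib] at h4
    have h5 := congrArg (fun t : ℤ => (t : ZMod 5)) h4
    simp only [Int.cast_sum, Int.cast_sub, Int.cast_zero] at h5
    refine Eq.trans ?_ h5
    unfold Pool.Agent.TH676.Z.bd
    rw [Finset.sum_sub_distrib, Finset.sum_sub_distrib]
    congr 1 <;>
    · refine Finset.sum_congr rfl fun e _ => ?_
      split_ifs <;> simp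
  · rcases h2 e with h | h | h <;> simp [h]
  · rw [← h3 e]
    have h10 : (1 : ZMod 5) ≠ 0 := by decide
    rcases h2 e with h | h | h <;> simp [h, h10]

theorem finish [Fintype V] [DecidableEq V] [Fintype E] [DecidableEq E] (src dst : E → V)
    (h : Pool.Agent.TH676.Z.FlowOn src dst ∅ ∅) :
    (∃ f : E → ℤ, IsFlow src dst f ∧ ∀ e, 1 ≤ |f e| ∧ |f e| ≤ 4) ∧
      ∀ q : ℕ, 5 ≤ q → 0 < bondCharPoly src dst q := by
  obtain ⟨F, hF, hF0⟩ := Pool.Agent.TH497.PW.int_flow src dst (nzf src dst h)
  have hF1 := (isFlow_iff src dst F).mpr hF0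
  exact ⟨⟨F, hF1, hF⟩, fun q hq => Pool.Agent.TH362.FP.chr_pos src dst F hF hF1 q hq⟩

/-- The vertex `v` has distance at most `s` from `c`: there is a walk from `c` to `v` with at most `s`
edges. -/
def InBall (src dst : E → V) (c : V) (s : ℕ) (v : V) : Prop :=
  ∃ p : (SimpleGraph.fromRel (fun u w : V => ∃ e, src e = u ∧ dst e = w)).Walk c v, p.length ≤ s

/-- The cycle space over `GF(2)` of the graph without the loops and without the vertices in `S`: the
functions on the edges which are zero on the loops and on the edges with an end in `S` and which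
satisfy Kirchhoff's law modulo 2. -/
def cycleSpace [DecidableEq V] [Fintype E] (src dst : E → V) (S : Finset V) :
    Submodule (ZMod 2) (E → ZMod 2) where
  carrier := {x | (∀ e, (src e = dst e ∨ src e ∈ S ∨ dst e ∈ S) → x e = 0) ∧
    ∀ v : V, ∑ e ∈ Finset.univ.filter (fun e => src e = v), x e
      + ∑ e ∈ Finset.univ.filter (fun e => dst e = v), x e = 0}
  add_mem' := by
    rintro a b ⟨h1, h2⟩ ⟨h3, h4⟩
    refine ⟨fun e he => by rw [Pi.add_apply, h1 e he, h3 e he, add_zero], fun v => ?_⟩
    simp only [Pi.add_apply, Finset.sum_add_distrib]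
    have := congrArg₂ (· + ·) (h2 v) (h4 v)
    simp only [add_zero] at this
    rw [← this]
    ring
  zero_mem' := ⟨fun _ _ => rfl, fun v => by simp⟩
  smul_mem' := by
    rintro c a ⟨h1, h2⟩
    refine ⟨fun e he => by rw [Pi.smul_apply, h1 e he, smul_zero], fun v => ?_⟩
    simp only [Pi.smul_apply, smul_eq_mul, ← Finset.mul_sum]
    rw [← mul_add, h2 v, mul_zero]

theorem cycleSpace_eq [Fintype V] [DecidableEq V] [Fintype E] [DecidableEq E] (src dst : E → V)
    (S : Finset V) : cycleSpace src dst S =
      Pool.Agent.TH676.Z.ZF src dst (Pool.Agent.TH676.Z.ES src dst S) := by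
  ext x
  have h2 : ∀ v, Pool.Agent.TH676.Z.bd2 src dst x v =
      ∑ e ∈ Finset.univ.filter (fun e => src e = v), x e
        + ∑ e ∈ Finset.univ.filter (fun e => dst e = v), x e := by
    intro v
    unfold Pool.Agent.TH676.Z.bd2
    rw [Finset.sum_add_distrib, Finset.sum_filter, Finset.sum_filter]
  constructor
  · rintro ⟨h, h'⟩
    refine ⟨fun e he => h e ?_, fun v => by rw [h2 v]; exact h' v⟩
    by_contra hc
    push Not at hc
    exact he (Finset.mem_filter.mpr ⟨Finset.mem_univ _, hc⟩)
  · rintro ⟨h, h'⟩
    refine ⟨fun e he => h e ?_, fun v => by rw [← h2 v]; exact h' v⟩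
    intro hc
    have h3 := (Finset.mem_filter.mp hc).2
    rcases he with he | he | he
    · exact h3.1 he
    · exact h3.2.1 he
    · exact h3.2.2 he

theorem inBall_mem [Fintype V] [DecidableEq V] [Fintype E] [DecidableEq E] {src dst : E → V}
    {c : V} {s : ℕ} {v : V} (h : InBall src dst c s v) :
    v ∈ Pool.Agent.Y335.FL.Edge62.Bl src dst c s := by
  obtain ⟨p, hp⟩ := h
  have key : ∀ (a b : V) (q : (SimpleGraph.fromRel
      (fun u w : V => ∃ e, src e = u ∧ dst e = w)).Walk a b) (m : ℕ),
      a ∈ Pool.Agent.Y335.FL.Edge62.Bl src dst c m →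
      b ∈ Pool.Agent.Y335.FL.Edge62.Bl src dst c (m + q.length) := by
    intro a b q
    induction q with
    | nil => intro m h; simpa using h
    | cons hab q ih =>
      intro m h
      have h1 := ih (m + 1) (Pool.Agent.Y335.FL.Edge62.mem_Bl_succ.2 (Or.inr ⟨_, h, by
        rw [SimpleGraph.fromRel_adj] at hab
        obtain ⟨hne, ⟨e, h2, h3⟩ | ⟨e, h2, h3⟩⟩ := hab
        · exact ⟨hne, e, Or.inl ⟨h2, h3⟩⟩
        · exact ⟨hne, e, Or.inr ⟨h2, h3⟩⟩⟩))
      rw [SimpleGraph.Walk.length_cons]
      rwa [add_assoc, add_comm 1] at h1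
  have h1 := key c v p 0 (Finset.mem_singleton_self c)
  rw [zero_add] at h1
  exact Pool.Agent.Y335.FL.Edge62.Bl_mono hp h1

theorem result :
    ∀ (V E W : Type) [Fintype V] [DecidableEq V] [Fintype E] [DecidableEq E] [Fintype W]
      [DecidableEq W] (src dst : E → V) (m : ℕ) (C : Fin m → Finset E),
      (∀ i, IsCycle src dst (C i)) →
      (∀ i, (C i \ (Finset.univ.filter (fun j => j < i)).biUnion C).card ≤ 11) →
      ∀ r : V → W, JoinedIn src dst (Finset.univ.biUnion C) r →
      ∀ (k : ℕ) (c : Fin k → W) (s : Fin k → ℕ) (S : Finset W),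
      (∀ w ∈ S, ∃ i, InBall (r ∘ src) (r ∘ dst) (c i) (s i) w) →
      63 * Module.finrank (ZMod 2) (cycleSpace (r ∘ src) (r ∘ dst) S) +
        68 * ∑ i, (3 * 2 ^ (s i) - 1) ≤ 4346 →
      (∀ Y : Finset V, (boundary src dst Y).card ≠ 1) →
      (∃ f : E → ℤ, IsFlow src dst f ∧ ∀ e, 1 ≤ |f e| ∧ |f e| ≤ 4) ∧
      ∀ q : ℕ, 5 ≤ q → 0 < bondCharPoly src dst q := by
  intro V E W _ _ _ _ _ _ src dst m C hC hnew r hr k c s S hS hW hb
  rw [cycleSpace_eq] at hW
  exact finish src dst (Pool.Agent.Helper335.Rel.relative src dst m C
    (fun i => mod5 src dst (C i) (hC i)) hnew r hr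
    (Pool.Agent.H14.F5.Outside.circuits s _ hW (r ∘ src) (r ∘ dst)
      ⟨c, S, fun v hv => (hS v hv).imp fun i hi => inBall_mem hi, le_rfl⟩
      (fun Y _ => by
        rw [Finset.sdiff_empty]
        exact Pool.Agent.Helper335.Rel.br_quot src dst r hb Y)))

/-- The case without balls and cycles: cyclomatic number at most 68. -/
theorem cyclomatic68 (V E : Type) [Fintype V] [DecidableEq V] [Fintype E] [DecidableEq E]
    (src dst : E → V) (hM : Module.finrank (ZMod 2) (cycleSpace src dst ∅) ≤ 68)
    (hb : ∀ Y : Finset V, (boundary src dst Y).card ≠ 1) :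
    ∃ f : E → ℤ, IsFlow src dst f ∧ ∀ e, 1 ≤ |f e| ∧ |f e| ≤ 4 :=
  (result V E V src dst 0 (fun _ => ∅) (fun i => i.elim0) (fun i => i.elim0) id
    (fun x y h => by rw [show x = y from h]) 0 (fun i => i.elim0) (fun i => i.elim0) ∅
    (fun v hv => absurd hv (Finset.notMem_empty v)) (by
      simp only [Function.id_comp, Finset.univ_eq_empty, Finset.sum_empty]
      omega) hb).1

end Pool.Agent.Results.MP_c8786f_co.CyclomaticOutsideBalls68
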