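import Mathlib
import Pool.Graph.R_seed8.TH497.PW.IntFlow
import Pool.Graph.R_seed8.TH362.FP.Pos
import Pool.Graph.R_seed8.Helper335.Rel.Main
import Pool.Agent.H14.F5.Crossings

set_option autoImplicit false

/-!
# Nowhere-zero 5-flows in graphs with crossing number at most 43 (MP_c8786f_co)

Let `G` be a bridgeless multigraph and let `F` be a set of `k` edges such that `G - F` satisfies
MacLane's condition with defect `h`: there is a family of elements of the cycle space over `GF(2)`
of `G - F` such that every edge is in at most two of them and the codimension of their span in the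
cycle space is at most `h`.  If `5 k + 6 h ≤ 215` then `G` has a nowhere-zero 5-flow, and the
characteristic polynomial of the bond matroid of `G` is positive at all integers `q ≥ 5`.

For a drawing of `G` in a surface of Euler genus `h` with `k` crossings let `F` contain one of the
two edges of every crossing; then `G - F` is embedded, and the boundaries of its faces are such a
family.  So every bridgeless graph which can be drawn with at most `k` crossings in a surface of
Euler genus `h`, `5 k + 6 h ≤ 215`, has a nowhere-zero 5-flow; in particular every bridgeless graph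
with crossing number at most 43, every bridgeless graph which becomes planar by the deletion of
at most 43 edges, and every bridgeless graph with Euler genus at most 35.  The degrees, the
connectivity and the order are arbitrary.  (The library has `5 k + 6 h ≤ 200`: crossing number 40 and
Euler genus 33, the limit of the bound 126, the order of the 12-cage, for a smallest counterexample.)

It is also sufficient that the graph `G / C` satisfies the condition, where `C` is the union of a
chain of cycles each of which has at most eleven edges outside the union of the earlier ones.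

Proof.  The class of these graphs is not closed under minors: the contraction of an edge of `F`
identifies two vertices of `G - F`.  Let `(G, F)` be a counterexample with as few edges as possible.
One can contract the edges which are not in `F`, and the edges at a vertex all of whose edges are in
`F`.  Circuits with at most eleven edges are contractible for nowhere-zero 5-flows (library
`Y335/FL`); so the nonzero elements of the cycle space of `G - F` have at least twelve edges.  All
vertices have at least three edges.  Counting faces one obtains `3 c ≤ 5 k + 6 h - 9` for the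
cyclomatic number `c` of `G`.  (So far this is the proof of the library, `R890/FL/Cross`.)  But
`c ≥ 69`: a counterexample with smallest cyclomatic number has at least 136 vertices of degree three
by `H14/F5/Main.lean`, because a cubic graph of girth twelve with at most 134 vertices becomes
bipartite by the deletion of eight vertices and is cyclically 9-edge-connected, so that it has a
nowhere-zero 5-flow by the library theorem `OddCircuitTransversals`.
-/

namespace Pool.Agent.Results.MP_c8786f_co.FortyThreeCrossings

open Pool.Agent.TH497.PW

variable {V E W : Type}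

/-- The edges with exactly one end in `Y`. -/
def boundary [DecidableEq V] [Fintype E] (src dst : E → V) (Y : Finset V) : Finset E :=
  Finset.univ.filter (fun e => ¬ (src e ∈ Y ↔ dst e ∈ Y))

/-- Kirchhoff's law. -/
def IsFlow [DecidableEq V] [Fintype E] (src dst : E → V) (f : E → ℤ) : Prop :=
  ∀ v : V, ∑ e ∈ Finset.univ.filter (fun e => src e = v), f e
    = ∑ e ∈ Finset.univ.filter (fun e => dst e = v), f e

/-- `C` is a cycle: the support of an integer flow with the values `0`, `1` and `-1`. -/
def IsCycle [DecidableEq V] [Fintype E] (src dst : E → V) (C : Finset E) : Prop :=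
  ∃ z : E → ℤ, IsFlow src dst z ∧ (∀ e, z e = 0 ∨ z e = 1 ∨ z e = -1) ∧ ∀ e, z e ≠ 0 ↔ e ∈ C

/-- The map `r` identifies only vertices which are joined by a path with edges in `C`; if `r` is
the map to the components of the graph `(V, C)` then `r ∘ src`, `r ∘ dst` is the graph `G / C` (with
the edges in `C` as loops). -/
def JoinedIn (src dst : E → V) (C : Finset E) (r : V → W) : Prop :=
  ∀ x y, r x = r y → (SimpleGraph.fromRel
    (fun u v : V => ∃ e ∈ C, src e = u ∧ dst e = v)).Reachable x y

/-- The cycle space over `GF(2)` of the graph `G - F`: the functions on the edges which are zero on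
the edges in `F` and which satisfy Kirchhoff's law modulo 2. -/
def cycleSpace [DecidableEq V] [Fintype E] (src dst : E → V) (F : Finset E) :
    Submodule (ZMod 2) (E → ZMod 2) where
  carrier := {x | (∀ e ∈ F, x e = 0) ∧
    ∀ v : V, ∑ e ∈ Finset.univ.filter (fun e => src e = v), x e
      + ∑ e ∈ Finset.univ.filter (fun e => dst e = v), x e = 0}
  add_mem' := by
    rintro a b ⟨h1, h2⟩ ⟨h3, h4⟩
    refine ⟨fun e he => by rw [Pi.add_apply, h1 e he, h3 e he, add_zero], fun v => ?_⟩
    simp only [Pi.add_apply, Finset.sum_add_distrib]
    have := congrArg₂ (· + ·) (h2 v) (h4 v)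
    simp only [add_zero] at this
    rw [← this]
    ring
  zero_mem' := ⟨fun _ _ => rfl, fun v => by simp⟩
  smul_mem' := by
    rintro c a ⟨h1, h2⟩
    refine ⟨fun e he => by rw [Pi.smul_apply, h1 e he, smul_zero], fun v => ?_⟩
    simp only [Pi.smul_apply, smul_eq_mul, ← Finset.mul_sum]
    rw [← mul_add, h2 v, mul_zero]

/-- MacLane's condition with defect `h` for the graph `G - F`: there is a finite family of elements
of the cycle space of `G - F` such that every edge is in at most two of them and the dimension of
the cycle space is at most the dimension of their span plus `h`. -/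
def MacLaneDefect [DecidableEq V] [Fintype E] (src dst : E → V) (F : Finset E) (h : ℕ) : Prop :=
  ∃ (k : ℕ) (K : Fin k → E → ZMod 2), (∀ i, K i ∈ cycleSpace src dst F) ∧
    (∀ e, (Finset.univ.filter (fun i => K i e ≠ 0)).card ≤ 2) ∧
    Module.finrank (ZMod 2) (cycleSpace src dst F) ≤
      Module.finrank (ZMod 2) (Submodule.span (ZMod 2) (Set.range K)) + h

/-- The number of the components of the graph with the vertices `V` and the edges `A`. -/
noncomputable def components (src dst : E → V) (A : Finset E) : ℕ :=
  Nat.card (SimpleGraph.fromRel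
    (fun u v : V => ∃ e ∈ A, src e = u ∧ dst e = v)).ConnectedComponent

/-- The rank of `A` in the cycle matroid of the graph. -/
noncomputable def cycleRank [Fintype V] (src dst : E → V) (A : Finset E) : ℕ :=
  Fintype.card V - components src dst A

/-- The rank of `A` in the bond matroid of the graph (the dual of the cycle matroid). -/
noncomputable def bondRank [Fintype V] [Fintype E] [DecidableEq E] (src dst : E → V)
    (A : Finset E) : ℕ :=
  A.card + cycleRank src dst Aᶜ - cycleRank src dst Finset.univ

/-- The characteristic polynomial of the bond matroid at the integer `x`. -/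
noncomputable def bondCharPoly [Fintype V] [Fintype E] [DecidableEq E] (src dst : E → V)
    (x : ℤ) : ℤ :=
  ∑ A : Finset E, (-1) ^ A.card * x ^ (bondRank src dst Finset.univ - bondRank src dst A)

theorem isFlow_iff [DecidableEq V] [Fintype E] (src dst : E → V) (f : E → ℤ) :
    IsFlow src dst f ↔
      ∀ v, ∑ e, f e * ((if src e = v then 1 else 0) - (if dst e = v then 1 else 0)) = 0 := by
  unfold IsFlow
  refine forall_congr' fun v => ?_
  rw [Finset.sum_filter, Finset.sum_filter, ← sub_eq_zero, ← Finset.sum_sub_distrib]
  have : ∀ e, (if src e = v then f e else 0) - (if dst e = v then f e else 0)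
      = f e * ((if src e = v then 1 else 0) - (if dst e = v then 1 else 0)) := by
    intro e
    by_cases h1 : src e = v <;> by_cases h2 : dst e = v <;> simp [h1, h2]
  rw [Finset.sum_congr rfl (fun e _ => this e)]

theorem nzf [Fintype V] [DecidableEq V] [Fintype E] [DecidableEq E] (src dst : E → V)
    (h : Pool.Agent.TH676.Z.FlowOn src dst ∅ ∅) : NZF src dst := by
  obtain ⟨f, h1, _, h3⟩ := h
  refine ⟨f, fun e => h3 e (Finset.notMem_empty _) (Finset.notMem_empty _), fun x => ?_⟩
  rw [← h1 x]
  unfold Pool.Agent.TH676.Z.bd
  refine Finset.sum_congr rfl fun e _ => ?_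
  unfold ic
  by_cases h4 : src e = x <;> by_cases h5 : dst e = x <;> simp [h4, h5]

theorem cycleSpace_eq [Fintype V] [DecidableEq V] [Fintype E] [DecidableEq E] (src dst : E → V)
    (F : Finset E) : cycleSpace src dst F =
      Pool.Agent.TH676.Z.ZF src dst (Finset.univ \ F) := by
  ext x
  have h2 : ∀ v, Pool.Agent.TH676.Z.bd2 src dst x v =
      ∑ e ∈ Finset.univ.filter (fun e => src e = v), x e
        + ∑ e ∈ Finset.univ.filter (fun e => dst e = v), x e := by
    intro v
    unfold Pool.Agent.TH676.Z.bd2
    rw [Finset.sum_add_distrib, Finset.sum_filter, Finset.sum_filter]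
  constructor
  · rintro ⟨h, h'⟩
    refine ⟨fun e he => h e ?_, fun v => by rw [h2 v]; exact h' v⟩
    by_contra hc
    exact he (Finset.mem_sdiff.mpr ⟨Finset.mem_univ _, hc⟩)
  · rintro ⟨h, h'⟩
    refine ⟨fun e he => h e ?_, fun v => by rw [← h2 v]; exact h' v⟩
    intro hc
    exact (Finset.mem_sdiff.mp hc).2 he

theorem charPoly_pos [Fintype V] [DecidableEq V] [Fintype E] [DecidableEq E] (src dst : E → V)
    (f : E → ℤ) (h1 : IsFlow src dst f) (h2 : ∀ e, 1 ≤ |f e| ∧ |f e| ≤ 4) (q : ℕ) (hq : 5 ≤ q) :
    0 < bondCharPoly src dst q :=
  Pool.Agent.TH362.FP.chr_pos src dst f h2 h1 q hq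

/-- the reduction modulo five of a flow with values in `{0, 1, -1}` -/
theorem mod5 [Fintype V] [DecidableEq V] [Fintype E] [DecidableEq E] (src dst : E → V)
    (C : Finset E) (h : IsCycle src dst C) :
    ∃ z : E → ZMod 5, (∀ v, Pool.Agent.TH676.Z.bd src dst z v = 0) ∧
      (∀ e, z e = 0 ∨ z e = 1 ∨ z e = -1) ∧ ∀ e, z e ≠ 0 ↔ e ∈ C := by
  obtain ⟨z, h1, h2, h3⟩ := h
  refine ⟨fun e => ((z e : ℤ) : ZMod 5), fun v => ?_, fun e => ?_, fun e => ?_⟩
  · have h4 := h1 v
    rw [Finset.sum_filter, Finset.sum_filter, ← sub_eq_zero, ← Finset.sum_sub_distrib] at h4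
    have h5 := congrArg (fun t : ℤ => (t : ZMod 5)) h4
    simp only [Int.cast_sum, Int.cast_sub, Int.cast_zero] at h5
    refine Eq.trans ?_ h5
    unfold Pool.Agent.TH676.Z.bd
    rw [Finset.sum_sub_distrib, Finset.sum_sub_distrib]
    congr 1 <;>
    · refine Finset.sum_congr rfl fun e _ => ?_
      split_ifs <;> simp
  · rcases h2 e with h | h | h <;> simp [h]
  · rw [← h3 e]
    have h10 : (1 : ZMod 5) ≠ 0 := by decide
    rcases h2 e with h | h | h <;> simp [h, h10]

/-- the case without the chain of cycles -/
theorem base [Fintype V] [DecidableEq V] [Fintype E] [DecidableEq E] (src dst : E → V)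
    (F : Finset E) (h : ℕ) (hk : 5 * F.card + 6 * h ≤ 215) (hM : MacLaneDefect src dst F h)
    (hb : ∀ Y : Finset V, (boundary src dst Y).card ≠ 1) :
    Pool.Agent.TH676.Z.FlowOn src dst ∅ ∅ := by
  have hM1 : Pool.Agent.TH676.Z.Mac h src dst (Finset.univ \ F) := by
    obtain ⟨k, K, h1, h2, h3⟩ := hM
    rw [cycleSpace_eq] at h3
    exact ⟨k, K, fun i => by rw [← cycleSpace_eq]; exact h1 i, h2, h3⟩
  have hM2 : Pool.Agent.TH676.Z.Mac h src dst (Pool.Agent.TH676.Z.Crit.nl src dst \ F) :=
    Pool.Agent.TH676.Z.ApMCx.sub_mac Pool.Agent.TH676.Z.macDel _ _ _ _ _ hM1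
      (Finset.sdiff_subset_sdiff (Finset.subset_univ _) (Finset.Subset.refl _))
  have hbr : Pool.Agent.TH676.Z.Br src dst ∅ ∅ :=
    fun Y _ => by rw [Finset.sdiff_empty]; exact hb Y
  exact Pool.Agent.H14.F5.Crossings.cross V E src dst F.card h hk ⟨F, le_rfl, hM2⟩ hbr

/-- Let `src dst : E → V` be a bridgeless multigraph, `C` a chain of cycles each of which has at most
eleven edges outside the union of the earlier ones (for instance the empty chain), `r` a map which
identifies vertices joined by paths with edges in the chain (for instance the identity), and let `F`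
be a set of edges such that the graph `r ∘ src`, `r ∘ dst` without `F` satisfies MacLane's condition
with defect `h` (for instance, is embedded in a surface of Euler genus `h`).  If
`5 |F| + 6 h ≤ 215` then the graph has a nowhere-zero 5-flow, and the characteristic polynomial of its
bond matroid is positive at all integers `q ≥ 5`. -/
theorem result :
    ∀ (V E W : Type) [Fintype V] [DecidableEq V] [Fintype E] [DecidableEq E] [Fintype W]
      [DecidableEq W] (src dst : E → V) (m : ℕ) (C : Fin m → Finset E),
      (∀ i, IsCycle src dst (C i)) →
      (∀ i, (C i \ (Finset.univ.filter (fun j => j < i)).biUnion C).card ≤ 11) →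
      ∀ r : V → W, JoinedIn src dst (Finset.univ.biUnion C) r →
      ∀ (F : Finset E) (h : ℕ), 5 * F.card + 6 * h ≤ 215 →
      MacLaneDefect (r ∘ src) (r ∘ dst) F h →
      (∀ Y : Finset V, (boundary src dst Y).card ≠ 1) →
      (∃ f : E → ℤ, IsFlow src dst f ∧ ∀ e, 1 ≤ |f e| ∧ |f e| ≤ 4) ∧
      ∀ q : ℕ, 5 ≤ q → 0 < bondCharPoly src dst q := by
  intro V E W _ _ _ _ _ _ src dst m C hC hnew r hr F h hk hM hb
  have hfl : Pool.Agent.TH676.Z.FlowOn src dst ∅ ∅ :=
    Pool.Agent.Helper335.Rel.relative src dst m C (fun i => mod5 src dst (C i) (hC i)) hnew r hr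
      (base (r ∘ src) (r ∘ dst) F h hk hM
        (fun Y => Pool.Agent.Helper335.Rel.br_quot src dst r hb Y))
  obtain ⟨f, hF, hF0⟩ := int_flow src dst (nzf src dst hfl)
  have hF1 := (isFlow_iff src dst f).mpr hF0
  exact ⟨⟨f, hF1, hF⟩, fun q hq => charPoly_pos src dst f hF1 hF q hq⟩

/-- Graphs which become planar by the deletion of 43 edges, for instance graphs with crossing number
at most 43. -/
theorem crossings43 (V E : Type) [Fintype V] [DecidableEq V] [Fintype E] [DecidableEq E]
    (src dst : E → V) (F : Finset E) (hF : F.card ≤ 43) (hM : MacLaneDefect src dst F 0)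
    (hb : ∀ Y : Finset V, (boundary src dst Y).card ≠ 1) :
    ∃ f : E → ℤ, IsFlow src dst f ∧ ∀ e, 1 ≤ |f e| ∧ |f e| ≤ 4 :=
  (result V E V src dst 0 (fun _ => ∅) (fun i => i.elim0) (fun i => i.elim0) id
    (fun x y h => by rw [show x = y from h]) F 0 (by omega) hM hb).1

end Pool.Agent.Results.MP_c8786f_co.FortyThreeCrossings
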