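import Mathlib
import Pool.Graph.R_seed8.TH497.PW.IntFlow
import Pool.Graph.R_seed8.TH362.FP.Pos
import Pool.Agent.H90.BW.Sparse

set_option autoImplicit false

/-!
# Nowhere-zero 5-flows: path decompositions with bags which are not sparse (MP_c8786f_co)

Let `G` be a bridgeless multigraph with a path decomposition such that any `24` vertices of a bag
include all vertices of a circuit of `G` with `2, ..., 11` edges (for example: such that all bags have
at most `23` vertices, that is pathwidth at most `22`).  Then `G` has a nowhere-zero 5-flow, and the
characteristic polynomial of its bond matroid is positive at all integers `q ≥ 5`.  There is no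
condition on the degrees, on the connectivity, on the number of vertices or on the size of the bags.
(The library, `MP_974d84_co.SparseWidths`, has the same with `22` in the place of `24`, so pathwidth
at most 20.)

Proof.  The class is closed under contractions.  In a counterexample with as few edges as possible
there are no circuits with at most eleven edges (library `Y335/FL`, `R129/Tia`); so the bags have at
most 23 vertices.  Graphs with a path decomposition with bags of at most 23 vertices are closed under
minors.  By the library a minimal counterexample has girth at least twelve and every vertex has at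
least three neighbours; so it has at least 126 vertices.

(1) A piecewise linear Moore bound (`H90/BW/Gb`).  Let `H` be a graph with `n` vertices, `m` edges,
minimum degree at least two and girth at least twelve, and let `c_0, ..., c_5` be ANY integers.  Then
`m n ≥ ∑_{i<6} 2 ^ c_i (6 i (m - n) - 2 m (c_i - 1))`.
The `i`-th term on the right is a lower bound for the number of the nonbacktracking walks with
`i + 1` edges.  Proof: in a random nonbacktracking walk which begins with a random dart all darts are
random.  If all degrees are two or three then the number of walks from a dart is the mean of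
`2 ^ K`, where `K` is the number of the vertices of degree three on the random walk; `K` is an
integer, and hence `2 ^ K ≥ 2 ^ c (K - c + 1)`.  A vertex of degree `d ≥ 4` is counted `3 - 6 / d`
times, and a local inequality shows that the bound remains true.  The Moore bound of Alon, Hoory and
Linial has the smaller bound `2 m (2 m / n - 1) ^ i` for the number of walks.

(2) So `n ≤ 65` and `m ≥ n + 10` imply `2 m + 22 < 3 n` (`H90/BW/Ex2`), and hence every set of
exactly 41 vertices with at least three neighbours each has at least 23 outer neighbours
(`H90/BW/Iso2`).

(3) Order the vertices by the first bag in which they occur.  The last 41 vertices have at most 22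
outer neighbours: if `t` is the least index of a first bag of one of them, then all outer neighbours
are in the bag `t`, which contains one of the 41 vertices.
-/

namespace Pool.Agent.Results.MP_c8786f_co.PathBags

open Pool.Agent.TH497.PW Pool.Agent.H90.BW

variable {V E : Type}

/-- The edges with exactly one end in `X`. -/
def boundary [DecidableEq V] [Fintype E] (src dst : E → V) (X : Finset V) : Finset E :=
  Finset.univ.filter (fun e => ¬ (src e ∈ X ↔ dst e ∈ X))

/-- Kirchhoff's law. -/
def IsFlow [DecidableEq V] [Fintype E] (src dst : E → V) (f : E → ℤ) : Prop :=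
  ∀ v : V, ∑ e ∈ Finset.univ.filter (fun e => src e = v), f e
    = ∑ e ∈ Finset.univ.filter (fun e => dst e = v), f e

/-- The number of the components of the graph with the vertices `V` and the edges `A`. -/
noncomputable def components (src dst : E → V) (A : Finset E) : ℕ :=
  Nat.card (SimpleGraph.fromRel
    (fun u v : V => ∃ e ∈ A, src e = u ∧ dst e = v)).ConnectedComponent

/-- The rank of `A` in the cycle matroid of the graph. -/
noncomputable def cycleRank [Fintype V] (src dst : E → V) (A : Finset E) : ℕ :=
  Fintype.card V - components src dst A

/-- The rank of `A` in the bond matroid of the graph (the dual of the cycle matroid). -/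
noncomputable def bondRank [Fintype V] [Fintype E] [DecidableEq E] (src dst : E → V)
    (A : Finset E) : ℕ :=
  A.card + cycleRank src dst Aᶜ - cycleRank src dst Finset.univ

/-- The characteristic polynomial of the bond matroid at the integer `x`. -/
noncomputable def bondCharPoly [Fintype V] [Fintype E] [DecidableEq E] (src dst : E → V)
    (x : ℤ) : ℤ :=
  ∑ A : Finset E, (-1) ^ A.card * x ^ (bondRank src dst Finset.univ - bondRank src dst A)

/-- The edge `e` joins `x` and `y`. -/
def Joins (src dst : E → V) (e : E) (x y : V) : Prop :=
  (src e = x ∧ dst e = y) ∨ (src e = y ∧ dst e = x)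

/-- All vertices of some circuit with `k + 2 = 2, ..., 11` edges are in `S`: the vertices `v i` are
distinct, the edges `e i` are distinct, and `e i` joins `v i` and `v (i + 1)` (modulo `k + 2`). -/
def HasShortCircuit (src dst : E → V) (S : Finset V) : Prop :=
  ∃ k, k ≤ 9 ∧ ∃ (v : Fin (k + 2) → V) (e : Fin (k + 2) → E), Function.Injective v ∧
    Function.Injective e ∧ ∀ i, v i ∈ S ∧ Joins src dst (e i) (v i) (v (i + 1))

/-- Any `n` vertices in `B` include all vertices of a circuit with `2, ..., 11` edges.  (Sets with
fewer than `n` vertices have this property.) -/
def NotSparse (src dst : E → V) (n : ℕ) (B : Finset V) : Prop :=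
  ∀ S ⊆ B, S.card = n → HasShortCircuit src dst S

/-- The sets `X 0, X 1, ...` are a path decomposition (a finite sequence is continued by empty sets):
the ends of every non-loop edge are together in one of the sets, and the indices `i` with `v ∈ X i`
form an interval for every vertex `v`. -/
structure IsPathDecomposition (src dst : E → V) (X : ℕ → Finset V) : Prop where
  edge : ∀ e, src e ≠ dst e → ∃ i, src e ∈ X i ∧ dst e ∈ X i
  interval : ∀ i j k v, i ≤ j → j ≤ k → v ∈ X i → v ∈ X k → v ∈ X j

theorem isFlow_iff [DecidableEq V] [Fintype E] (src dst : E → V) (f : E → ℤ) :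
    IsFlow src dst f ↔
      ∀ v, ∑ e, f e * ((if src e = v then 1 else 0) - (if dst e = v then 1 else 0)) = 0 := by
  unfold IsFlow
  refine forall_congr' fun v => ?_
  rw [Finset.sum_filter, Finset.sum_filter, ← sub_eq_zero, ← Finset.sum_sub_distrib]
  have : ∀ e, (if src e = v then f e else 0) - (if dst e = v then f e else 0)
      = f e * ((if src e = v then 1 else 0) - (if dst e = v then 1 else 0)) := by
    intro e
    by_cases h1 : src e = v <;> by_cases h2 : dst e = v <;> simp [h1, h2]
  rw [Finset.sum_congr rfl (fun e _ => this e)]

theorem nzf [Fintype V] [DecidableEq V] [Fintype E] [DecidableEq E] (src dst : E → V)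
    (h : Pool.Agent.TH676.Z.FlowOn src dst ∅ ∅) : NZF src dst := by
  obtain ⟨f, h1, _, h3⟩ := h
  refine ⟨f, fun e => h3 e (Finset.notMem_empty _) (Finset.notMem_empty _), fun x => ?_⟩
  rw [← h1 x]
  unfold Pool.Agent.TH676.Z.bd
  refine Finset.sum_congr rfl fun e _ => ?_
  unfold ic
  by_cases h4 : src e = x <;> by_cases h5 : dst e = x <;> simp [h4, h5]

theorem charPoly_pos [Fintype V] [DecidableEq V] [Fintype E] [DecidableEq E] (src dst : E → V)
    (f : E → ℤ) (h1 : IsFlow src dst f) (h2 : ∀ e, 1 ≤ |f e| ∧ |f e| ≤ 4) (q : ℕ) (hq : 5 ≤ q) :
    0 < bondCharPoly src dst q :=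
  Pool.Agent.TH362.FP.chr_pos src dst f h2 h1 q hq

/-- **Theorem.** Let `G` be a finite multigraph (loops and parallel edges allowed), given by the ends
`src e`, `dst e` of each edge `e`, without an edge cut consisting of exactly one edge.  If `G` has a
path decomposition such that any 24 vertices of a bag include all vertices of a circuit with
`2, ..., 11` edges, then `G` has an integer flow with values in `{±1, ±2, ±3, ±4}`, and the
characteristic polynomial of the bond matroid of `G` is positive at all integers `q ≥ 5`. -/
theorem result :
    ∀ (V E : Type) [Fintype V] [DecidableEq V] [Fintype E] [DecidableEq E] (src dst : E → V)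
      (X : ℕ → Finset V), IsPathDecomposition src dst X → (∀ i, NotSparse src dst 24 (X i)) →
      (∀ Y : Finset V, (boundary src dst Y).card ≠ 1) →
      (∃ f : E → ℤ, IsFlow src dst f ∧ ∀ e, 1 ≤ |f e| ∧ |f e| ≤ 4) ∧
      ∀ q : ℕ, 5 ≤ q → 0 < bondCharPoly src dst q := by
  intro V E _ _ _ _ src dst X hX hS hb
  have hfl := Sp.flow_path (src := src) (dst := dst) ⟨X, hX.edge, hX.interval,
    fun i => Sp.spw (hS i)⟩ (fun Y _ => by rw [Finset.sdiff_empty]; exact hb Y)
  obtain ⟨F, hF, hF0⟩ := int_flow src dst (nzf src dst hfl)
  have hF1 := (isFlow_iff src dst F).mpr hF0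
  exact ⟨⟨F, hF1, hF⟩, fun q hq => charPoly_pos src dst F hF1 hF q hq⟩

/-- Pathwidth at most 22. -/
theorem width (V E : Type) [Fintype V] [DecidableEq V] [Fintype E] [DecidableEq E]
    (src dst : E → V) (X : ℕ → Finset V) (hX : IsPathDecomposition src dst X)
    (hw : ∀ i, (X i).card ≤ 23) (hb : ∀ Y : Finset V, (boundary src dst Y).card ≠ 1) :
    (∃ f : E → ℤ, IsFlow src dst f ∧ ∀ e, 1 ≤ |f e| ∧ |f e| ≤ 4) ∧
      ∀ q : ℕ, 5 ≤ q → 0 < bondCharPoly src dst q :=
  result V E src dst X hX (fun i S hS hc => by
    have := Finset.card_le_card hS
    have := hw i
    omega) hb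

end Pool.Agent.Results.MP_c8786f_co.PathBags
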