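import Mathlib
import Pool.Graph.R_seed8.TH497.PW.IntFlow
import Pool.Graph.R_seed8.TH362.FP.Pos
import Pool.Graph.R_seed8.Y335.FL.Main
import Pool.Agent.H14.F5.Main

set_option autoImplicit false

/-!
# Nowhere-zero 5-flows: a minimal counterexample has at least 136 vertices (MP_c8786f_co)

Let `G` be a bridgeless multigraph which does not contain 136 pairwise disjoint sets of vertices with
exactly three boundary edges each; for example, let at most 135 vertices of `G` have odd degree.  Then
`G` has a nowhere-zero 5-flow, and the characteristic polynomial of its bond matroid is positive at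
all integers `q ≥ 5`.  The order of `G`, its connectivity and its degrees are not bounded.  (The bound
of the library is 126, the order of Tutte's 12-cage, which was the limit of the girth method.)

More generally it is sufficient that every partition of the vertex set into `k` classes with at least
three boundary edges each, of which at least 136 have exactly three boundary edges, has at least
`5 (k - 1) / 3` crossing edges; and only the partitions and sets are needed without crossing edges and
boundary edges in the union `F` of a chain of cycles each of which has at most eleven edges outside of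
the union of the earlier ones.

Proof.  The edges of `F` are contracted.  Let `H` be a quotient of `G` without nowhere-zero 5-flow all
of whose proper quotients have such flows.  By the library `H` has girth at least twelve and all
degrees are at least three (`Y335/FL`, `Y358/IN`), and it is sparse (`N410/FV`).  Let `N` be the number
of the vertices of `H` which are not isolated.

(1) If some vertex has at least four neighbours then `N ≥ 157` by counting the paths which begin with
an edge at this vertex; together with the Moore bound for irregular graphs and the sparsity this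
gives 136 vertices of degree three.

(2) Let `H` be cubic and `N ≤ 135`, so `N ≤ 134`.  Let `xy` be an edge.  The paths of length at most
five which begin at `x` and avoid `y`, or conversely, reach 126 vertices, and the parity of their
lengths is a proper 2-colouring of the graph induced by these vertices, since the girth is at least
twelve.  So the deletion of some set `T` of at most eight vertices leaves a bipartite graph.
Moreover, by the Moore bound for irregular graphs a side of an edge cut with at most eight edges which
contains a circuit has at least 69 vertices; so `H` is cyclically 9-edge-connected.  A cyclically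
9-edge-connected cubic graph in which at most eight vertices meet all odd circuits has a
`1/2`-flow-pair by the theorem `OddCircuitTransversals` of the library (Edmonds' perfect matching
polytope and the pairing of odd circuits), and so `H` has a nowhere-zero 5-flow, a contradiction.

(3) So `H` has at least 136 vertices of degree three.  The classes of these vertices are disjoint sets
of vertices of `G` with three boundary edges, and the classes of `H` form a partition with too few
crossing edges (`N410/FV`).
-/

namespace Pool.Agent.Results.MP_c8786f_co.ThreeCutPacking136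

open Pool.Agent.TH497.PW

variable {V E : Type}

/-- The edges with exactly one end in `X`. -/
def boundary [DecidableEq V] [Fintype E] (src dst : E → V) (X : Finset V) : Finset E :=
  Finset.univ.filter (fun e => ¬ (src e ∈ X ↔ dst e ∈ X))

/-- Kirchhoff's law. -/
def IsFlow [DecidableEq V] [Fintype E] (src dst : E → V) (f : E → ℤ) : Prop :=
  ∀ v : V, ∑ e ∈ Finset.univ.filter (fun e => src e = v), f e
    = ∑ e ∈ Finset.univ.filter (fun e => dst e = v), f e

/-- The `i`-th class of the partition `p`. -/
def part [Fintype V] {k : ℕ} (p : V → Fin k) (i : Fin k) : Finset V :=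
  Finset.univ.filter (fun v => p v = i)

/-- Every partition of the vertex set into `k` classes, such that no edge of `F` joins different
classes, every class has at least three boundary edges and at least 136 classes have exactly three
boundary edges, has at least `5 (k - 1) / 3` edges between different classes. -/
def ManyCrossing [Fintype V] [DecidableEq V] [Fintype E] (src dst : E → V) (F : Finset E) : Prop :=
  ∀ (k : ℕ) (p : V → Fin k), Function.Surjective p → (∀ e ∈ F, p (src e) = p (dst e)) →
    (∀ i, 3 ≤ (boundary src dst (part p i)).card) →
    136 ≤ (Finset.univ.filter (fun i => (boundary src dst (part p i)).card = 3)).card →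
    5 * k ≤ 3 * (Finset.univ.filter (fun e => p (src e) ≠ p (dst e))).card + 5

/-- There are 136 pairwise disjoint sets of vertices with exactly three boundary edges, none of them
in `F`. -/
def Packing136 [DecidableEq V] [Fintype E] (src dst : E → V) (F : Finset E) : Prop :=
  ∃ X : Fin 136 → Finset V, (∀ i j, i ≠ j → Disjoint (X i) (X j)) ∧
    ∀ i, (boundary src dst (X i)).card = 3 ∧ Disjoint (boundary src dst (X i)) F

/-- Every vertex has at least `k` different neighbours. -/
def Neighbours (src dst : E → V) (k : ℕ) : Prop :=
  ∀ v : V, ∃ W : Finset V, k ≤ W.card ∧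
    ∀ w ∈ W, w ≠ v ∧ ∃ e, (src e = v ∧ dst e = w) ∨ (src e = w ∧ dst e = v)

/-- The number of the components of the graph with the vertices `V` and the edges `A`. -/
noncomputable def components (src dst : E → V) (A : Finset E) : ℕ :=
  Nat.card (SimpleGraph.fromRel
    (fun u v : V => ∃ e ∈ A, src e = u ∧ dst e = v)).ConnectedComponent

/-- The rank of `A` in the cycle matroid of the graph. -/
noncomputable def cycleRank [Fintype V] (src dst : E → V) (A : Finset E) : ℕ :=
  Fintype.card V - components src dst A

/-- The rank of `A` in the bond matroid of the graph (the dual of the cycle matroid). -/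
noncomputable def bondRank [Fintype V] [Fintype E] [DecidableEq E] (src dst : E → V)
    (A : Finset E) : ℕ :=
  A.card + cycleRank src dst Aᶜ - cycleRank src dst Finset.univ

/-- The characteristic polynomial of the bond matroid at the integer `x`. -/
noncomputable def bondCharPoly [Fintype V] [Fintype E] [DecidableEq E] (src dst : E → V)
    (x : ℤ) : ℤ :=
  ∑ A : Finset E, (-1) ^ A.card * x ^ (bondRank src dst Finset.univ - bondRank src dst A)

theorem isFlow_iff [DecidableEq V] [Fintype E] (src dst : E → V) (f : E → ℤ) :
    IsFlow src dst f ↔
      ∀ v, ∑ e, f e * ((if src e = v then 1 else 0) - (if dst e = v then 1 else 0)) = 0 := by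
  unfold IsFlow
  refine forall_congr' fun v => ?_
  rw [Finset.sum_filter, Finset.sum_filter, ← sub_eq_zero, ← Finset.sum_sub_distrib]
  have : ∀ e, (if src e = v then f e else 0) - (if dst e = v then f e else 0)
      = f e * ((if src e = v then 1 else 0) - (if dst e = v then 1 else 0)) := by
    intro e
    by_cases h1 : src e = v <;> by_cases h2 : dst e = v <;> simp [h1, h2]
  rw [Finset.sum_congr rfl (fun e _ => this e)]

theorem nzf [Fintype V] [DecidableEq V] [Fintype E] [DecidableEq E] (src dst : E → V)
    (h : Pool.Agent.TH676.Z.FlowOn src dst ∅ ∅) : NZF src dst := by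
  obtain ⟨f, h1, _, h3⟩ := h
  refine ⟨f, fun e => h3 e (Finset.notMem_empty _) (Finset.notMem_empty _), fun x => ?_⟩
  rw [← h1 x]
  unfold Pool.Agent.TH676.Z.bd
  refine Finset.sum_congr rfl fun e _ => ?_
  unfold ic
  by_cases h4 : src e = x <;> by_cases h5 : dst e = x <;> simp [h4, h5]

theorem charPoly_pos [Fintype V] [DecidableEq V] [Fintype E] [DecidableEq E] (src dst : E → V)
    (f : E → ℤ) (h1 : IsFlow src dst f) (h2 : ∀ e, 1 ≤ |f e| ∧ |f e| ≤ 4) (q : ℕ) (hq : 5 ≤ q) :
    0 < bondCharPoly src dst q :=
  Pool.Agent.TH362.FP.chr_pos src dst f h2 h1 q hq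

/-- the reduction modulo five of a flow with values in `{0, 1, -1}` -/
theorem mod5 [Fintype V] [DecidableEq V] [Fintype E] [DecidableEq E] (src dst : E → V)
    (C : Finset E) (h : ∃ z : E → ℤ, IsFlow src dst z ∧ (∀ e, z e = 0 ∨ z e = 1 ∨ z e = -1) ∧
      ∀ e, z e ≠ 0 ↔ e ∈ C) :
    ∃ z : E → ZMod 5, (∀ v, Pool.Agent.TH676.Z.bd src dst z v = 0) ∧
      (∀ e, z e = 0 ∨ z e = 1 ∨ z e = -1) ∧ ∀ e, z e ≠ 0 ↔ e ∈ C := by
  obtain ⟨z, h1, h2, h3⟩ := h
  refine ⟨fun e => ((z e : ℤ) : ZMod 5), fun v => ?_, fun e => ?_, fun e => ?_⟩
  · have h4 := h1 v
    rw [Finset.sum_filter, Finset.sum_filter, ← sub_eq_zero, ← Finset.sum_sub_distrib] at h4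
    have h5 := congrArg (fun t : ℤ => (t : ZMod 5)) h4
    simp only [Int.cast_sum, Int.cast_sub, Int.cast_zero] at h5
    refine Eq.trans ?_ h5
    unfold Pool.Agent.TH676.Z.bd
    rw [Finset.sum_sub_distrib, Finset.sum_sub_distrib]
    congr 1 <;>
    · refine Finset.sum_congr rfl fun e _ => ?_
      split_ifs <;> simp
  · rcases h2 e with h | h | h <;> simp [h]
  · rw [← h3 e]
    have h10 : (1 : ZMod 5) ≠ 0 := by decide
    rcases h2 e with h | h | h <;> simp [h, h10]

/-- the parity of a boundary -/
theorem odd_vertex [Fintype V] [DecidableEq V] [Fintype E] [DecidableEq E] (src dst : E → V)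
    (X : Finset V) (h : (boundary src dst X).card = 3) :
    ∃ v ∈ X, Odd (boundary src dst {v}).card := by
  classical
  by_contra hcon
  push Not at hcon
  have h1 : ∀ v ∈ X, (((boundary src dst {v}).card : ℕ) : ZMod 2) = 0 := by
    intro v hv
    rw [ZMod.natCast_eq_zero_iff_even, ← Nat.not_odd_iff_even]
    exact hcon v hv
  have h2 : ∑ v ∈ X, (((boundary src dst {v}).card : ℕ) : ZMod 2) =
      (((boundary src dst X).card : ℕ) : ZMod 2) := by
    unfold boundary
    simp only [Finset.card_filter, Nat.cast_sum, Nat.cast_ite, Nat.cast_one, Nat.cast_zero,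
      Finset.mem_singleton]
    rw [Finset.sum_comm]
    refine Finset.sum_congr rfl fun e _ => ?_
    have h3 : ∀ v, (if ¬ (src e = v ↔ dst e = v) then (1 : ZMod 2) else 0) =
        (if src e = v then (1 : ZMod 2) else 0) + (if dst e = v then (1 : ZMod 2) else 0) := by
      intro v
      by_cases a : src e = v <;> by_cases b : dst e = v <;> simp [a, b]
      decide
    rw [Finset.sum_congr rfl fun v _ => h3 v, Finset.sum_add_distrib, Finset.sum_ite_eq,
      Finset.sum_ite_eq]
    by_cases a : src e ∈ X <;> by_cases b : dst e ∈ X <;> simp [a, b]
    decide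
  rw [Finset.sum_congr rfl h1, Finset.sum_const_zero, h] at h2
  revert h2
  decide

/-- the flow -/
theorem main [Fintype V] [DecidableEq V] [Fintype E] [DecidableEq E] (src dst : E → V)
    (m : ℕ) (C : Fin m → Finset E)
    (hb : ∀ Y : Finset V, (boundary src dst Y).card ≠ 1)
    (hC : ∀ i, ∃ z : E → ℤ, IsFlow src dst z ∧ (∀ e, z e = 0 ∨ z e = 1 ∨ z e = -1) ∧
      ∀ e, z e ≠ 0 ↔ e ∈ C i)
    (hnew : ∀ i, (C i \ (Finset.univ.filter (fun j => j < i)).biUnion C).card ≤ 11)
    (h : ManyCrossing src dst (Finset.univ.biUnion C)) :
    (∃ f : E → ℤ, IsFlow src dst f ∧ ∀ e, 1 ≤ |f e| ∧ |f e| ≤ 4) ∧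
      ∀ q : ℕ, 5 ≤ q → 0 < bondCharPoly src dst q := by
  have h1 := Pool.Agent.H14.F5.flow Pool.Agent.Y335.FL.quot' Pool.Agent.Y335.FL.contract_all 136
    (fun V E _ _ _ _ s d hM hex => Pool.Agent.H14.F5.cubic136 Pool.Agent.Y335.FL.contract_all
      Pool.Agent.Y335.FL.ahl hM hex) src dst (Finset.univ.biUnion C)
    (fun Y _ => by rw [Finset.sdiff_empty]; exact hb Y) h
  have hfl := Pool.Agent.Y335.FL.lift_all V E src dst m C (fun i => mod5 src dst (C i) (hC i)) hnew h1
  obtain ⟨F, hF, hF0⟩ := int_flow src dst (nzf src dst hfl)
  have hF1 := (isFlow_iff src dst F).mpr hF0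
  exact ⟨⟨F, hF1, hF⟩, fun q hq => charPoly_pos src dst F hF1 hF q hq⟩

/-- Let `src dst : E → V` be a bridgeless multigraph, and let `C` be a chain of cycles each of which
has at most eleven edges outside of the union of the earlier ones (for instance the empty chain).  If

(1) every partition into classes with at least three boundary edges, of which at least 136 have
exactly three, and without crossing edges in the chain, has at least `5 (k - 1) / 3` crossing edges,
or

(2) there are no 136 disjoint sets of vertices with three boundary edges, none of them in the chain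
(a special case of (1)), or

(3) at most 135 vertices have odd degree (a special case of (2); an even number of edges at a vertex
is the same as a boundary with an even number of edges), or

(4) every vertex has at least `k ≥ 4` different neighbours and there are at most `136 k + 135`
vertices (a special case of (2)),

then the graph has a nowhere-zero 5-flow, and the characteristic polynomial of the bond matroid is
positive at all integers `q ≥ 5`. -/
theorem result :
    ∀ (V E : Type) [Fintype V] [DecidableEq V] [Fintype E] [DecidableEq E] (src dst : E → V)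
      (m : ℕ) (C : Fin m → Finset E),
      (∀ Y : Finset V, (boundary src dst Y).card ≠ 1) →
      (∀ i, ∃ z : E → ℤ, IsFlow src dst z ∧ (∀ e, z e = 0 ∨ z e = 1 ∨ z e = -1) ∧
        ∀ e, z e ≠ 0 ↔ e ∈ C i) →
      (∀ i, (C i \ (Finset.univ.filter (fun j => j < i)).biUnion C).card ≤ 11) →
      (ManyCrossing src dst (Finset.univ.biUnion C) ∨
        ¬ Packing136 src dst (Finset.univ.biUnion C) ∨
        {v : V | Odd (boundary src dst {v}).card}.ncard ≤ 135 ∨
        ∃ k, 4 ≤ k ∧ Neighbours src dst k ∧ Fintype.card V < 136 * (k + 1)) →
      (∃ f : E → ℤ, IsFlow src dst f ∧ ∀ e, 1 ≤ |f e| ∧ |f e| ≤ 4) ∧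
      ∀ q : ℕ, 5 ≤ q → 0 < bondCharPoly src dst q := by
  intro V E _ _ _ _ src dst m C hb hC hnew h
  refine main src dst m C hb hC hnew ?_
  rcases h with h | h | h | ⟨k, h4, hk, hn⟩
  · exact h
  · refine Pool.Agent.H14.F5.large_of_packing 136 src dst _ fun X hX => ?_
    by_contra hcon
    push Not at hcon
    exact h ⟨X, hX, fun i => ⟨(hcon i).2, (hcon i).1⟩⟩
  · refine Pool.Agent.H14.F5.large_of_packing 136 src dst _ fun X hX => ?_
    by_contra hcon
    push Not at hcon
    have h1 : ∀ i, ∃ v ∈ X i, Odd (boundary src dst {v}).card :=
      fun i => odd_vertex src dst (X i) (hcon i).2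
    choose v hv hodd using h1
    have hinj : Function.Injective v := by
      intro i j hij
      by_contra hne
      exact (Finset.disjoint_left.1 (hX i j hne)) (hv i) (by rw [hij]; exact hv j)
    have h2 : Set.range v ⊆ {v : V | Odd (boundary src dst {v}).card} := by
      rintro _ ⟨i, rfl⟩
      exact hodd i
    have h3 := Set.ncard_le_ncard h2 (Set.toFinite _)
    rw [← Set.image_univ, Set.ncard_image_of_injective _ hinj, Set.ncard_univ, Nat.card_eq_fintype_card,
      Fintype.card_fin] at h3
    omega
  · refine Pool.Agent.H14.F5.large_of_packing 136 src dst _ fun X hX => ?_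
    obtain ⟨i, hi⟩ := Pool.Agent.H14.F5.no_packing 136 h4 hk hn X hX
    exact ⟨i, Or.inr hi⟩

end Pool.Agent.Results.MP_c8786f_co.ThreeCutPacking136
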